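import Mathlib
import Pool.Agent.N503.MLFin

/-!
Lower total curvature of surfaces in Euclidean four-space; symmetry.
-/

set_option autoImplicit false

namespace Pool.Agent.N15.RC

open scoped ContDiff RealInnerProductSpace ENNReal Topology
open MeasureTheory Set Metric Filter
open Pool.Agent.Y503.RB Pool.Agent.N503.ML

/-- The normal vector `n` at `φ z` points upwards and the second fundamental form with respect to
`n` is positive definite: near `φ z` the surface curves towards `n` in all tangential directions. -/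
def Cup (φ : ℂ → E4) (n : E4) (z : ℂ) : Prop := 0 < n 3 ∧ 0 < sff φ n 1 1 z ∧ 0 < kdet φ n z

open Classical in
/-- Density of the lower curvature. -/
noncomputable def densL (φ : ℂ → E4) (n : E4) (z : ℂ) : ℝ :=
  if Cup φ n z then kdet φ n z / √(fffDet φ z) else 0

/-- Integral of the density over the circle of unit normal vectors at `φ z`. (All `L` in the
supremum give the same value.) -/
noncomputable def curvL (φ : ℂ → E4) (z : ℂ) : ℝ≥0∞ :=
  ⨆ (L : ℂ →ₗᵢ[ℝ] E4) (_ : ∀ w v : ℂ, ⟪L w, d1 φ v z⟫ = 0),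
    ∫⁻ θ in Ico 0 (2 * Real.pi),
      ENNReal.ofReal (densL φ (L ⟨Real.cos θ, Real.sin θ⟩) z)

/-- Lower total curvature of a disc. -/
noncomputable def lowE (φ : ℂ → E4) : ℝ≥0∞ := ∫⁻ z in ball (0 : ℂ) 1, curvL φ z

/-- Upper total curvature of a disc. -/
noncomputable def uppE (φ : ℂ → E4) : ℝ≥0∞ := ∫⁻ z in ball (0 : ℂ) 1, curvE φ z

/-- The height `x₃` is a Morse function on the open disc. -/
def MorseHt (φ : ℂ → E4) : Prop :=
  ∀ z ∈ ball (0 : ℂ) 1, fderiv ℝ (fun w => φ w 3) z = 0 → ∀ u : ℂ,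
    (∀ v : ℂ, fderiv ℝ (fderiv ℝ (fun w => φ w 3)) z u v = 0) → u = 0

/-- The number of local minima of the height in the open disc. -/
noncomputable def nmin (φ : ℂ → E4) : ℕ∞ :=
  {z : ℂ | z ∈ ball (0 : ℂ) 1 ∧ IsLocalMin (fun w => φ w 3) z}.encard

/-- The number of local maxima of the height in the open disc. -/
noncomputable def nmax (φ : ℂ → E4) : ℕ∞ :=
  {z : ℂ | z ∈ ball (0 : ℂ) 1 ∧ IsLocalMax (fun w => φ w 3) z}.encard

/-! ### Symmetry -/

/-- The opposite disc. -/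
noncomputable def opp (φ : ℂ → E4) : ℂ → E4 := fun w => -φ w

theorem opp_opp (φ : ℂ → E4) : opp (opp φ) = φ := by
  funext w
  simp [opp]

theorem opp_three (φ : ℂ → E4) (w : ℂ) : opp φ w 3 = -(φ w 3) := rfl

theorem fderiv_opp (φ : ℂ → E4) (z : ℂ) : fderiv ℝ (opp φ) z = -fderiv ℝ φ z := by
  have : opp φ = -φ := rfl
  rw [this, fderiv_neg]

theorem d1_opp (φ : ℂ → E4) (v z : ℂ) : d1 (opp φ) v z = -d1 φ v z := by
  unfold d1
  rw [fderiv_opp]
  rfl

theorem d2_opp (φ : ℂ → E4) (u v z : ℂ) : d2 (opp φ) u v z = -d2 φ u v z := by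
  unfold d2
  have : (fun w => fderiv ℝ (opp φ) w v) = -(fun w => fderiv ℝ φ w v) := by
    funext w
    rw [fderiv_opp]
    rfl
  rw [this, fderiv_neg]
  rfl

theorem sff_opp (φ : ℂ → E4) (n : E4) (u v z : ℂ) : sff (opp φ) n u v z = -sff φ n u v z := by
  unfold sff
  rw [d2_opp, inner_neg_right]

theorem kdet_opp (φ : ℂ → E4) (n : E4) (z : ℂ) : kdet (opp φ) n z = kdet φ n z := by
  unfold kdet
  rw [sff_opp, sff_opp, sff_opp]
  ring

theorem fffDet_opp (φ : ℂ → E4) (z : ℂ) : fffDet (opp φ) z = fffDet φ z := by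
  unfold fffDet fff
  simp only [d1_opp, inner_neg_neg]

theorem cap_opp (φ : ℂ → E4) (n : E4) (z : ℂ) : Cap (opp φ) n z ↔ Cup φ n z := by
  unfold Cap Cup
  rw [sff_opp, kdet_opp, neg_lt_zero]

theorem densE_opp (φ : ℂ → E4) (n : E4) (z : ℂ) : densE (opp φ) n z = densL φ n z := by
  unfold densE densL
  rw [kdet_opp, fffDet_opp]
  by_cases h : Cup φ n z
  · rw [if_pos h, if_pos ((cap_opp φ n z).2 h)]
  · rw [if_neg h, if_neg (fun h' => h ((cap_opp φ n z).1 h'))]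

theorem curvE_opp (φ : ℂ → E4) (z : ℂ) : curvE (opp φ) z = curvL φ z := by
  unfold curvE curvL
  simp only [densE_opp, d1_opp, inner_neg_right, neg_eq_zero]

theorem uppE_opp (φ : ℂ → E4) : uppE (opp φ) = lowE φ := by
  unfold uppE lowE
  simp only [curvE_opp]

theorem ipatch_opp {φ : ℂ → E4} {U : Set ℂ} (h : IPatch φ U) : IPatch (opp φ) U := by
  refine ⟨h.isOpen, h.smooth.neg, fun z hz => ?_⟩
  rw [fderiv_opp]
  intro a b hab
  exact h.imm z hz (neg_injective hab)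

theorem nmax_opp (φ : ℂ → E4) : nmax (opp φ) = nmin φ := by
  unfold nmax nmin
  congr 1
  ext z
  simp only [mem_ofPred_eq]
  refine and_congr_right fun _ => ?_
  constructor
  · intro h
    have h2 : ∀ᶠ w in 𝓝 z, opp φ w 3 ≤ opp φ z 3 := h
    show ∀ᶠ w in 𝓝 z, φ z 3 ≤ φ w 3
    filter_upwards [h2] with w hw
    rw [opp_three, opp_three] at hw
    linarith
  · intro h
    have h2 : ∀ᶠ w in 𝓝 z, φ z 3 ≤ φ w 3 := h
    show ∀ᶠ w in 𝓝 z, opp φ w 3 ≤ opp φ z 3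
    filter_upwards [h2] with w hw
    rw [opp_three, opp_three]
    linarith

/-! ### Surfaces with a vertical collar, upwards or downwards -/

/-- Embedded disc, vertical near the boundary: what is used of `φ` and `-φ`. -/
structure Srf (φ : ℂ → E4) : Prop where
  smooth : ∃ W : Set ℂ, IsOpen W ∧ closedBall 0 1 ⊆ W ∧ ContDiffOn ℝ ∞ φ W
  imm : ∀ z ∈ closedBall (0 : ℂ) 1, Function.Injective (fderiv ℝ φ z)
  collar : ∃ δ c : ℝ, 0 < δ ∧ δ < 1 ∧ c ≠ 0 ∧ ∀ z : ℂ, 1 - δ < ‖z‖ → ‖z‖ < 1 →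
    d1 φ z z = (c * ‖z‖) • vert

theorem Srf.at {φ : ℂ → E4} (h : Srf φ) {z : ℂ} (hz : z ∈ closedBall (0 : ℂ) 1) :
    ContDiffAt ℝ ∞ φ z := by
  obtain ⟨W, hW, hsub, hs⟩ := h.smooth
  exact hs.contDiffAt (hW.mem_nhds (hsub hz))

theorem Srf.patch {φ : ℂ → E4} (h : Srf φ) : IPatch φ (ball 0 1) := by
  obtain ⟨W, hW, hsub, hs⟩ := h.smooth
  exact ⟨isOpen_ball, hs.mono (ball_subset_closedBall.trans hsub),
    fun z hz => h.imm z (ball_subset_closedBall hz)⟩

theorem srf_of {φ : ℂ → E4} (h : HalfDisc φ) : Srf φ := by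
  obtain ⟨δ, c, hδ, hδ1, hc, hcol⟩ := h.collar
  refine ⟨h.smooth, h.imm, δ, -c, hδ, hδ1, neg_ne_zero.2 hc.ne', fun z h1 h2 => ?_⟩
  rw [collar_deriv h hδ1 hcol h1 h2, neg_mul]

theorem Srf.opp {φ : ℂ → E4} (h : Srf φ) : Srf (opp φ) := by
  obtain ⟨W, hW, hsub, hs⟩ := h.smooth
  obtain ⟨δ, c, hδ, hδ1, hc, hcol⟩ := h.collar
  refine ⟨⟨W, hW, hsub, hs.neg⟩, fun z hz => ?_, δ, -c, hδ, hδ1, neg_ne_zero.2 hc,
    fun z h1 h2 => ?_⟩
  · rw [fderiv_opp]
    intro a b hab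
    exact h.imm z hz (neg_injective hab)
  · rw [d1_opp, hcol z h1 h2, neg_mul, neg_smul]

theorem morse_opp {φ : ℂ → E4} (hM : MorseHt φ) : MorseHt (opp φ) := by
  intro z hz hcr u hu
  have e1 : (fun w => opp φ w 3) = -(fun w => φ w 3) := rfl
  have e2 : fderiv ℝ (-(fun w => φ w 3)) = -fderiv ℝ (fun w => φ w 3) := by
    funext w
    rw [fderiv_neg]
    rfl
  rw [e1, fderiv_neg, neg_eq_zero] at hcr
  refine hM z hz hcr u fun v => ?_
  have := hu v
  rw [e1, e2, fderiv_neg] at this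
  have h3 : -(fderiv ℝ (fderiv ℝ (fun w => φ w 3)) z u v) = 0 := this
  exact neg_eq_zero.1 h3

end Pool.Agent.N15.RC
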