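import Mathlib
import Pool.Agent.N15.RC.Def

/-!
Stretched discs (after `Pool.Agent.N503.MLScale`, `Pool.Agent.N503.MLFin`), for surfaces which are
vertical near the boundary, upwards or downwards.
-/

set_option autoImplicit false

namespace Pool.Agent.N15.RC

open scoped ContDiff RealInnerProductSpace ENNReal Topology
open MeasureTheory Set Metric Filter
open Pool.Agent.Y503.RB Pool.Agent.N503.ML

theorem curv_finite {φ : ℂ → E4} (h : Srf φ) :
    ∫⁻ z in ball (0 : ℂ) 1, curvE φ z ≠ ⊤ := by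
  obtain ⟨W, hW, hWsub, hWs⟩ := h.smooth
  set B : ℂ → ℝ := fun z => (‖d2 φ 1 1 z‖ * ‖d2 φ Complex.I Complex.I z‖ +
    ‖d2 φ 1 Complex.I z‖ ^ 2) / √(fffDet φ z) with hB
  have hpos : ∀ z ∈ closedBall (0 : ℂ) 1, 0 < √(fffDet φ z) := fun z hz =>
    Real.sqrt_pos.2 (Pool.Agent.Y503.RB.fffDet_pos (h.imm z hz))
  have hF : ContinuousOn (fun z => fffDet φ z) W := by
    unfold fffDet fff
    exact (((c1 hW hWs 1).inner (c1 hW hWs 1)).mul
      ((c1 hW hWs Complex.I).inner (c1 hW hWs Complex.I))).sub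
        (((c1 hW hWs 1).inner (c1 hW hWs Complex.I)).pow 2)
  have hcB : ContinuousOn B (closedBall 0 1) := by
    refine ContinuousOn.div ?_ ((hF.mono hWsub).sqrt) fun z hz => (hpos z hz).ne'
    exact ((((c2 hW hWs 1 1).norm).mul ((c2 hW hWs Complex.I Complex.I).norm)).add
      (((c2 hW hWs 1 Complex.I).norm).pow 2)).mono hWsub
  obtain ⟨M, hM⟩ := (isCompact_closedBall (0 : ℂ) 1).exists_bound_of_continuousOn hcB
  have hbd : ∀ z ∈ ball (0 : ℂ) 1, curvE φ z ≤ ENNReal.ofReal M * ENNReal.ofReal (2 * Real.pi) := by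
    intro z hz
    have hzc := ball_subset_closedBall hz
    refine iSup₂_le fun L _ => ?_
    have h1 : ∀ θ : ℝ, ENNReal.ofReal (densE φ (L ⟨Real.cos θ, Real.sin θ⟩) z) ≤
        ENNReal.ofReal M := by
      intro θ
      apply ENNReal.ofReal_le_ofReal
      have hn : ‖L ⟨Real.cos θ, Real.sin θ⟩‖ = 1 := by
        rw [L.norm_map]
        have h2 : ‖(⟨Real.cos θ, Real.sin θ⟩ : ℂ)‖ ^ 2 = 1 := by
          rw [← Complex.normSq_eq_norm_sq, Complex.normSq_apply]
          have := Real.sin_sq_add_cos_sq θ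
          nlinarith
        have h3 := norm_nonneg (⟨Real.cos θ, Real.sin θ⟩ : ℂ)
        nlinarith
      obtain ⟨n, hnn⟩ : ∃ n, n = L ⟨Real.cos θ, Real.sin θ⟩ := ⟨_, rfl⟩
      rw [← hnn] at hn ⊢
      have hMz := hM z hzc
      rw [Real.norm_eq_abs] at hMz
      have hM0 : 0 ≤ M := (abs_nonneg _).trans hMz
      unfold densE
      split_ifs with hc
      · refine le_trans ?_ ((le_abs_self _).trans hMz)
        apply div_le_div_of_nonneg_right _ (hpos z hzc).le
        have a1 := abs_sff_le φ hn 1 1 z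
        have a2 := abs_sff_le φ hn Complex.I Complex.I z
        have a3 := abs_sff_le φ hn 1 Complex.I z
        unfold kdet
        have b1 : sff φ n 1 1 z * sff φ n Complex.I Complex.I z ≤
            ‖d2 φ 1 1 z‖ * ‖d2 φ Complex.I Complex.I z‖ := by
          refine (le_abs_self _).trans ?_
          rw [abs_mul]
          exact mul_le_mul a1 a2 (abs_nonneg _) (norm_nonneg _)
        have b2 : 0 ≤ sff φ n 1 Complex.I z ^ 2 := sq_nonneg _
        have b3 : 0 ≤ ‖d2 φ 1 Complex.I z‖ ^ 2 := sq_nonneg _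
        linarith
      · exact hM0
    calc ∫⁻ θ in Ico 0 (2 * Real.pi), ENNReal.ofReal (densE φ (L ⟨Real.cos θ, Real.sin θ⟩) z)
        ≤ ∫⁻ _ in Ico 0 (2 * Real.pi), ENNReal.ofReal M := lintegral_mono fun θ => h1 θ
      _ = ENNReal.ofReal M * ENNReal.ofReal (2 * Real.pi) := by
          rw [setLIntegral_const, Real.volume_Ico, sub_zero]
  have h2 : ∫⁻ z in ball (0 : ℂ) 1, curvE φ z ≤
      (ENNReal.ofReal M * ENNReal.ofReal (2 * Real.pi)) * volume (ball (0 : ℂ) 1) := by
    calc ∫⁻ z in ball (0 : ℂ) 1, curvE φ z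
        ≤ ∫⁻ _ in ball (0 : ℂ) 1, ENNReal.ofReal M * ENNReal.ofReal (2 * Real.pi) :=
          setLIntegral_mono' measurableSet_ball hbd
      _ = _ := by rw [setLIntegral_const]
  refine ne_top_of_le_ne_top ?_ h2
  exact ENNReal.mul_ne_top (ENNReal.mul_ne_top ENNReal.ofReal_ne_top ENNReal.ofReal_ne_top)
    measure_ball_lt_top.ne

/-- Critical points of a Morse height are nondegenerate. -/
theorem kdet_ne {φ : ℂ → E4} (h : Srf φ) (hM : MorseHt φ) {z₀ : ℂ} (hz₀ : z₀ ∈ ball (0 : ℂ) 1)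
    (hcr' : fderiv ℝ (fun w => φ w 3) z₀ = 0) : kdet φ vert z₀ ≠ 0 := by
  have hsm := h.at (ball_subset_closedBall hz₀)
  intro hk
  have hmo := hM z₀ hz₀ hcr'
  have hsff : ∀ u v, fderiv ℝ (fderiv ℝ (fun w => φ w 3)) z₀ u v = sff φ vert u v z₀ := by
    intro u v
    rw [height_eq, (hess hsm vert 0).2]
  simp only [hsff] at hmo
  unfold kdet at hk
  set e := sff φ vert 1 1 z₀ with he
  set f := sff φ vert 1 Complex.I z₀ with hf
  set g := sff φ vert Complex.I Complex.I z₀ with hg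
  have hsy : sff φ vert Complex.I 1 z₀ = f := sff_symm hsm vert _ _
  have hgen : ∀ u v : ℂ, sff φ vert u v z₀ = u.re * (v.re * e + v.im * f) +
      u.im * (v.re * f + v.im * g) := by
    intro u v
    rw [sff_left vert u v, sff_symm hsm vert 1 v, sff_symm hsm vert Complex.I v,
      sff_left vert v 1, sff_left vert v Complex.I, hsy]
  have h1 := hmo ⟨f, -e⟩ (fun v => by
    rw [hgen]
    simp only
    linear_combination (-v.im) * hk)
  have h2 := hmo ⟨g, -f⟩ (fun v => by
    rw [hgen]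
    simp only
    linear_combination (v.re) * hk)
  have hf0 : f = 0 := congrArg Complex.re h1
  have he0 : e = 0 := by
    have := congrArg Complex.im h1
    simp at this
    exact this
  have h3 := hmo 1 (fun v => by
    rw [hgen]
    simp [he0, hf0])
  exact one_ne_zero h3

/-- The local structure for directions close to the vertical one. -/
theorem local_count {φ : ℂ → E4} (h : Srf φ) (hM : MorseHt φ) {z₀ : ℂ}
    (hz₀ : z₀ ∈ ball (0 : ℂ) 1) :
    ∃ ε > 0, ∀ p : E4, ‖p - vert‖ < ε →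
      (∀ z ∈ ball z₀ ε, ∀ z' ∈ ball z₀ ε, CritCap φ p z → CritCap φ p z' → z = z') ∧
      (¬ IsLocalMax (fun w => φ w 3) z₀ → ∀ z ∈ ball z₀ ε, ¬ CritCap φ p z) := by
  obtain ⟨W, hW, hWsub, hWs⟩ := h.smooth
  have hzW : W ∈ 𝓝 z₀ := hW.mem_nhds (hWsub (ball_subset_closedBall hz₀))
  have hsm := h.at (ball_subset_closedBall hz₀)
  have k1 : ∀ v : ℂ, ContinuousAt (fun q : E4 × ℂ => ⟪q.1, d1 φ v q.2⟫) (vert, z₀) := by
    intro v
    have : ContinuousAt (fun z => d1 φ v z) z₀ := (c1 hW hWs v).continuousAt hzW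
    exact continuousAt_fst.inner (ContinuousAt.comp (x := (vert, z₀))
      (g := fun z => d1 φ v z) (f := fun q : E4 × ℂ => q.2) this continuousAt_snd)
  have k2 : ∀ u v : ℂ, ContinuousAt (fun q : E4 × ℂ => sff φ q.1 u v q.2) (vert, z₀) := by
    intro u v
    have : ContinuousAt (fun z => d2 φ u v z) z₀ := (c2 hW hWs u v).continuousAt hzW
    exact continuousAt_fst.inner (ContinuousAt.comp (x := (vert, z₀))
      (g := fun z => d2 φ u v z) (f := fun q : E4 × ℂ => q.2) this continuousAt_snd)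
  have k3 : ContinuousAt (fun q : E4 × ℂ => kdet φ q.1 q.2) (vert, z₀) := by
    unfold kdet
    exact ((k2 1 1).mul (k2 Complex.I Complex.I)).sub ((k2 1 Complex.I).pow 2)
  have ksnd : ∀ᶠ q : E4 × ℂ in 𝓝 (vert, z₀), q.2 ∈ W :=
    (continuous_snd.tendsto (vert, z₀)).eventually hzW
  have hnear : ∀ {P : E4 × ℂ → Prop}, (∀ᶠ q in 𝓝 (vert, z₀), P q) →
      ∃ ε > 0, ∀ p : E4, ‖p - vert‖ < ε → ∀ z ∈ ball z₀ ε, P (p, z) := by
    intro P hP
    obtain ⟨ε, hε, hb⟩ := Metric.eventually_nhds_iff.1 hP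
    refine ⟨ε, hε, fun p hp z hz => hb ?_⟩
    rw [Prod.dist_eq, max_lt_iff]
    exact ⟨by rw [dist_eq_norm]; exact hp, hz⟩
  by_cases hcr : ∀ v : ℂ, ⟪vert, d1 φ v z₀⟫ = 0
  · by_cases hpos : ∃ v : ℂ, 0 < sff φ vert v v z₀
    · obtain ⟨v, hv⟩ := hpos
      obtain ⟨ε, hε, hb⟩ := hnear (((k2 v v).eventually (lt_mem_nhds hv)).and
        ksnd)
      have hno : ∀ p : E4, ‖p - vert‖ < ε → ∀ z ∈ ball z₀ ε, ¬ CritCap φ p z := by
        intro p hp z hz hcc
        obtain ⟨g1, g2⟩ := hb p hp z hz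
        have hv0 : v ≠ 0 := by
          rintro rfl
          rw [sff_left] at hv
          simp at hv
        have := sff_neg (hWs.contDiffAt (hW.mem_nhds g2)) hcc.2.2.1 hcc.2.2.2 hv0
        simp only at g1
        linarith
      exact ⟨ε, hε, fun p hp => ⟨fun z hz _ _ hc => absurd hc (hno p hp z hz),
        fun _ => hno p hp⟩⟩
    · push Not at hpos
      have hnd : kdet φ vert z₀ ≠ 0 := by
        refine kdet_ne h hM hz₀ ?_
        ext v
        rw [height_eq, (hess hsm vert 0).1]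
        exact hcr v
      obtain ⟨a, b⟩ := neg_of_semidef hsm hpos hnd
      obtain ⟨ε, hε, hb⟩ := hnear ((((k2 1 1).eventually (gt_mem_nhds a)).and
        (k3.eventually (lt_mem_nhds b))).and
        ksnd)
      have hVs : ∀ z ∈ ball z₀ ε, ContDiffAt ℝ ∞ φ z := fun z hz =>
        hWs.contDiffAt (hW.mem_nhds (hb vert (by simpa using hε) z hz).2)
      refine ⟨ε, hε, fun p hp => ⟨fun z hz z' hz' hc hc' => ?_, fun hnm => ?_⟩⟩
      · exact ((unique_crit (convex_ball z₀ ε) hVs p (fun w hw => (hb p hp w hw).1) hz hz'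
          hc.1).2 hc'.1).symm
      · exfalso
        apply hnm
        filter_upwards [ball_mem_nhds z₀ hε] with w hw
        have := (unique_crit (convex_ball z₀ ε) hVs vert
          (fun w hw => (hb vert (by simpa using hε) w hw).1) (mem_ball_self hε) hw hcr).1
        rw [inner_vert, inner_vert] at this
        exact this
  · push Not at hcr
    obtain ⟨v, hv⟩ := hcr
    obtain ⟨ε, hε, hb⟩ := hnear ((k1 v).eventually_ne hv)
    have hno : ∀ p : E4, ‖p - vert‖ < ε → ∀ z ∈ ball z₀ ε, ¬ CritCap φ p z :=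
      fun p hp z hz hcc => hb p hp z hz (hcc.1 v)
    exact ⟨ε, hε, fun p hp => ⟨fun z hz _ _ hc => absurd hc (hno p hp z hz), fun _ => hno p hp⟩⟩

/-- Directions close to the vertical one. -/
theorem near_vert {φ : ℂ → E4} (h : Srf φ) (hM : MorseHt φ) {m : ℕ} (hm : nmax φ ≤ m) :
    ∃ ε > 0, ∀ p : E4, ‖p - vert‖ < ε → ∀ s : Finset ℂ,
      (∀ z ∈ s, z ∈ ball (0 : ℂ) 1 ∧ CritCap φ p z) → s.card ≤ m := by
  classical
  obtain ⟨δ, c, hδ, hδ1, hc, hcol⟩ := h.collar
  have hloc : ∀ z₀ : ℂ, ∃ ε > 0, z₀ ∈ ball (0 : ℂ) 1 → ∀ p : E4, ‖p - vert‖ < ε →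
      (∀ z ∈ ball z₀ ε, ∀ z' ∈ ball z₀ ε, CritCap φ p z → CritCap φ p z' → z = z') ∧
      (¬ IsLocalMax (fun w => φ w 3) z₀ → ∀ z ∈ ball z₀ ε, ¬ CritCap φ p z) := by
    intro z₀
    by_cases hz₀ : z₀ ∈ ball (0 : ℂ) 1
    · obtain ⟨ε, hε, hb⟩ := local_count h hM hz₀
      exact ⟨ε, hε, fun _ => hb⟩
    · exact ⟨1, one_pos, fun h => absurd h hz₀⟩
  choose r hr hrb using hloc
  obtain ⟨t, ht1, ht2⟩ := (isCompact_closedBall (0 : ℂ) (1 - δ)).elim_nhds_subcover
    (fun z => ball z (r z)) (fun z _ => ball_mem_nhds z (hr z))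
  obtain ⟨ε, hε, hεt⟩ := exists_min t r hr
  refine ⟨ε, hε, fun p hp s hs => ?_⟩
  have hin : ∀ z ∈ s, ∃ z₀ ∈ t, z ∈ ball z₀ (r z₀) := by
    intro z hz
    obtain ⟨hz1, hz2⟩ := hs z hz
    have hzn : ‖z‖ ≤ 1 - δ := by
      by_contra hcon
      push Not at hcon
      have h1 := hcol z hcon (mem_ball_zero_iff.1 hz1)
      have h2 := hz2.1 z
      rw [h1, real_inner_smul_right, real_inner_comm, inner_vert] at h2
      have hz0 : 0 < ‖z‖ := by linarith
      have h3 : c * ‖z‖ * p 3 ≠ 0 := mul_ne_zero (mul_ne_zero hc hz0.ne') hz2.2.1.ne'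
      exact h3 h2
    have := ht2 (mem_closedBall_zero_iff.2 hzn)
    simpa using this
  choose! f hf1 hf2 using hin
  have hball : ∀ z ∈ s, f z ∈ ball (0 : ℂ) 1 := fun z hz => by
    have := mem_closedBall_zero_iff.1 (ht1 _ (hf1 z hz))
    exact mem_ball_zero_iff.2 (by linarith)
  have hpr : ∀ z ∈ s, ‖p - vert‖ < r (f z) := fun z hz => hp.trans_le (hεt _ (hf1 z hz))
  have hinj : InjOn f (s : Set ℂ) := by
    intro a ha b hb hab
    have h1 := (hrb (f a) (hball a ha) p (hpr a ha)).1 a (hf2 a ha) b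
      (by rw [hab]; exact hf2 b hb) (hs a ha).2 (hs b hb).2
    exact h1
  have hsub : ((s.image f : Finset ℂ) : Set ℂ) ⊆
      {z : ℂ | z ∈ ball (0 : ℂ) 1 ∧ IsLocalMax (fun w => φ w 3) z} := by
    intro w hw
    obtain ⟨z, hz, rfl⟩ := Finset.mem_image.1 (Finset.mem_coe.1 hw)
    refine ⟨hball z hz, ?_⟩
    by_contra hnm
    exact (hrb (f z) (hball z hz) p (hpr z hz)).2 hnm z (hf2 z hz) (hs z hz).2
  have h1 := (Set.encard_le_encard hsub).trans hm
  rw [Set.encard_coe_eq_coe_finsetCard, Finset.card_image_of_injOn hinj] at h1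
  exact_mod_cast h1

theorem ipatch_lam {φ : ℂ → E4} {U : Set ℂ} (h : IPatch φ U) {l : ℝ} (hl : 0 < l) :
    IPatch (fun w => lam l (φ w)) U := by
  refine ⟨h.isOpen, (lam l).contDiff.comp_contDiffOn h.smooth, fun z hz => ?_⟩
  have hd : DifferentiableAt ℝ φ z :=
    ((h.smooth.contDiffAt (h.isOpen.mem_nhds hz))).differentiableAt (by simp)
  have : HasFDerivAt (fun w => lam l (φ w)) ((lam l).comp (fderiv ℝ φ z)) z :=
    (lam l).hasFDerivAt.comp z hd.hasFDerivAt
  rw [this.fderiv]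
  exact (lam_inj hl).comp (h.imm z hz)

/-- The upper curvature of a stretched disc. -/
theorem curv_lam {φ : ℂ → E4} (h : Srf φ) (hM : MorseHt φ) {m : ℕ} (hm : nmax φ ≤ m) :
    ∃ C : ℝ, 0 ≤ C ∧ ∀ l : ℝ, 0 < l →
      ∫⁻ z in ball (0 : ℂ) 1, curvE (fun w => lam l (φ w)) z ≤
        ENNReal.ofReal (Real.pi ^ 2 * m + C / l) := by
  obtain ⟨ε, hε, hnear⟩ := near_vert h hM hm
  obtain ⟨c, hc1, hc2, hc3, -, -⟩ := counting h.patch isOpen_ball.measurableSet subset_rfl
  set K : ℝ≥0∞ := ∫⁻ z in ball (0 : ℂ) 1, curvE φ z with hK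
  have hKf : K ≠ ⊤ := curv_finite h
  set σ : ℝ := (1 + 1 / ε)⁻¹ with hσd
  have hσ : 0 < σ := by positivity
  refine ⟨K.toReal / σ ^ 4, by positivity, fun l hl => ?_⟩
  have hL := ipatch_lam h.patch hl
  obtain ⟨c', hc1', hc2', -, hc4', hc5'⟩ := counting hL isOpen_ball.measurableSet subset_rfl
  have hbound : ∀ y, c' y ≤ HB.indicator (fun _ => (m : ℝ≥0∞)) y + c (σ • lam l y) := by
    intro y
    by_cases hy0 : c' y = 0
    · rw [hy0]; exact bot_le
    obtain ⟨hyb, hy3⟩ := hc5' y hy0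
    have hiff : ∀ z ∈ ball (0 : ℂ) 1, CritCap (fun w => lam l (φ w)) y z ↔
        CritCap φ (lam l y) z := fun z hz => critCap_lam (h.at (ball_subset_closedBall hz)) hl y
    have hl3 : 0 < l * y 3 := mul_pos hl hy3
    by_cases hn : ‖y - (y 3) • vert‖ < ε * (l * y 3)
    · -- almost vertical
      refine le_trans ?_ (le_add_right le_rfl)
      rw [indicator_of_mem (show y ∈ HB from ⟨hyb, hy3⟩)]
      refine hc4' y _ fun s hs => ?_
      have h1 : ‖(l * y 3)⁻¹ • lam l y - vert‖ < ε := by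
        have e : (l * y 3)⁻¹ • lam l y - vert = (l * y 3)⁻¹ • (y - (y 3) • vert) := by
          rw [lam_apply, smul_add, smul_sub, smul_smul, smul_smul]
          have : (l * y 3)⁻¹ * ((l - 1) * y 3) = 1 - (l * y 3)⁻¹ * y 3 := by
            field_simp
          rw [this, sub_smul, one_smul]
          abel
        rw [e, norm_smul, Real.norm_eq_abs, abs_of_pos (inv_pos.2 hl3), inv_mul_lt_iff₀ hl3,
          mul_comm]
        exact hn
      have h2 := hnear _ h1 s fun z hz => ⟨(hs z hz).1, by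
        rw [critCap_smul (inv_pos.2 hl3)]
        exact (hiff z (hs z hz).1).1 (hs z hz).2⟩
      exact_mod_cast h2
    · refine le_trans ?_ (le_add_left le_rfl)
      push Not at hn
      have hmem : σ • lam l y ∈ ball (0 : E4) 1 := by
        rw [mem_ball_zero_iff, norm_smul, Real.norm_eq_abs, abs_of_pos hσ]
        have h1 := norm_le_lam y l
        rw [abs_of_pos hl3] at h1
        have h2 : ‖y - (y 3) • vert‖ ≤ ‖y‖ := by
          have e : ⟪y - (y 3) • vert, (y 3) • vert⟫ = 0 := by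
            rw [inner_sub_left, real_inner_smul_right, real_inner_smul_right,
              real_inner_smul_left, real_inner_self_eq_norm_sq, norm_vert, real_inner_comm,
              inner_vert]
            ring
          have e2 := norm_add_sq_eq_norm_sq_add_norm_sq_of_inner_eq_zero _ _ e
          rw [sub_add_cancel] at e2
          have e3 := norm_nonneg (y - (y 3) • vert)
          have e4 := norm_nonneg y
          have e5 := norm_nonneg ((y 3) • vert)
          by_contra hcon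
          push Not at hcon
          nlinarith
        have h3 := mem_ball_zero_iff.1 hyb
        have h4 : l * y 3 ≤ 1 / ε * ‖y - (y 3) • vert‖ := by
          rw [one_div, ← div_eq_inv_mul, le_div_iff₀ hε, mul_comm]
          exact hn
        have h5 : ‖lam l y‖ < 1 + 1 / ε := by
          have h6 : (0 : ℝ) < 1 / ε := by positivity
          nlinarith
        rw [hσd, inv_mul_lt_one₀ (by positivity)]
        exact h5
      refine hc4' y _ fun s hs => hc3 _ hmem s fun z hz => ⟨(hs z hz).1, ?_⟩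
      rw [critCap_smul hσ]
      exact (hiff z (hs z hz).1).1 (hs z hz).2
  have h1 : ENNReal.ofReal (1 / 4) * ∫⁻ z in ball (0 : ℂ) 1, curvE (fun w => lam l (φ w)) z ≤
      m * ENNReal.ofReal (Real.pi ^ 2 / 4) +
        ENNReal.ofReal ((σ ^ 4 * l)⁻¹) * (ENNReal.ofReal (1 / 4) * K) := by
    rw [← hc2', ← vol_HB]
    calc ∫⁻ y, c' y ≤ ∫⁻ y, (HB.indicator (fun _ => (m : ℝ≥0∞)) y + c (σ • lam l y)) :=
          lintegral_mono hbound
      _ = _ := by
          rw [lintegral_add_left (measurable_const.indicator measurable_HB),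
            lintegral_indicator measurable_HB, setLIntegral_const, lint_lam hc1 hσ hl, hc2]
  have h2 : ENNReal.ofReal 4 * (ENNReal.ofReal (1 / 4) *
      ∫⁻ z in ball (0 : ℂ) 1, curvE (fun w => lam l (φ w)) z) =
      ∫⁻ z in ball (0 : ℂ) 1, curvE (fun w => lam l (φ w)) z := by
    rw [← mul_assoc, ← ENNReal.ofReal_mul (by norm_num)]
    norm_num
  rw [← h2]
  refine (mul_le_mul_right h1 (ENNReal.ofReal 4)).trans ?_
  have hK' : K = ENNReal.ofReal K.toReal := (ENNReal.ofReal_toReal hKf).symm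
  have hK0 : 0 ≤ K.toReal := ENNReal.toReal_nonneg
  rw [hK', ← ENNReal.ofReal_natCast, ← ENNReal.ofReal_mul (by positivity),
    ← ENNReal.ofReal_mul (by positivity), ← ENNReal.ofReal_mul (by positivity),
    ← ENNReal.ofReal_add (by positivity) (by positivity), ← ENNReal.ofReal_mul (by positivity)]
  apply ENNReal.ofReal_le_ofReal
  rw [ENNReal.toReal_ofReal hK0]
  apply le_of_eq
  field_simp

end Pool.Agent.N15.RC
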