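import Mathlib
import Pool.Agent.N15.RC.Def

/-!
The disc on which the height is a given linear function (after `Pool.Agent.N503.MLDisc`).
-/

set_option autoImplicit false

namespace Pool.Agent.N15.RC

open scoped ContDiff RealInnerProductSpace ENNReal Topology
open MeasureTheory Set Metric Filter
open Pool.Agent.Y503.RB Pool.Agent.N503.ML

theorem crit_of_max {χ : ℂ → E4} {z : ℂ} (hsm : ContDiffAt ℝ ∞ χ z) {y : E4} (hy3 : 0 < y 3) {T : ℝ}
    (hmax : IsLocalMax (fun w => ⟪y, χ w⟫ + T) z) (hk : kdet χ y z ≠ 0) : CritCap χ y z := by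
  have hs2 : ContDiffAt ℝ ∞ (fun w => -(⟪y, χ w⟫ + T)) z := by
    have e2 : ContDiffAt ℝ ∞ (fun w => ⟪y, χ w⟫) z :=
      (innerSL ℝ y).contDiff.contDiffAt.comp z hsm
    exact (e2.add contDiffAt_const).neg
  have hmin : IsLocalMin (fun w => -(⟪y, χ w⟫ + T)) z := by
    filter_upwards [hmax] with w hw
    exact neg_le_neg hw
  have hsoc := Pool.Agent.Y640.RB.soc _ z hs2 hmin
  have hneg : ∀ w, sff χ y w w z ≤ 0 := by
    intro w
    have e1 : (fun w => -(⟪y, χ w⟫ + T)) = fun w => ⟪-y, χ w⟫ + (-T) := by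
      funext w
      rw [inner_neg_left]; ring
    have e2 := hsoc w
    rw [e1, (hess hsm (-y) (-T)).2] at e2
    unfold sff at e2 ⊢
    rw [inner_neg_left] at e2
    linarith
  obtain ⟨a, b⟩ := neg_of_semidef hsm hneg hk
  have hcr : fderiv ℝ (fun w => ⟪y, χ w⟫ + T) z = 0 := hmax.fderiv_eq_zero
  exact ⟨fun v => by rw [← (hess hsm y T).1 v, hcr]; rfl, hy3, a, b⟩

/-- The height of the new disc is the linear function `⟨y, ·⟩` up to a constant, outside of the
collar, where it has no critical points. -/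
theorem lift_disc {φ : ℂ → E4} (h : HalfDisc φ) {y : E4} (hy3 : y 3 = 1)
    (hyn : ∀ z ∈ ball (0 : ℂ) 1, (∀ v : ℂ, ⟪y, d1 φ v z⟫ = 0) → kdet φ y z ≠ 0) :
    ∃ ψ : ℂ → E4, HalfDisc ψ ∧ (∀ z ∈ sphere (0 : ℂ) 1, ψ z = φ z) ∧ MorseHt ψ ∧
      (∀ z ∈ ball (0 : ℂ) 1, IsLocalMax (fun w => ψ w 3) z → CritCap φ y z) ∧
      (∀ z ∈ ball (0 : ℂ) 1, IsLocalMin (fun w => ψ w 3) z → CritCap (opp φ) y z) := by
  set q : E4 := y - vert with hqd
  have hq : q 3 = 0 := by
    have : q 3 = y 3 - vert 3 := rfl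
    rw [this, hy3, vert_three, sub_self]
  have hyq : ∀ x : E4, ⟪y, x⟫ = x 3 + ⟪q, x⟫ := by
    intro x
    rw [hqd, inner_sub_left, inner_vert]; ring
  obtain ⟨W, hW, hWsub, hWs⟩ := h.smooth
  obtain ⟨δ, c, hδ, hδ1, hc, hcol⟩ := h.collar
  have hcont : ContinuousOn φ (closedBall 0 1) := hWs.continuousOn.mono hWsub
  -- the constant `T`
  obtain ⟨T, hT0⟩ : ∃ T : ℝ, ∀ z ∈ closedBall (0 : ℂ) 1, 0 < T + ⟪q, φ z⟫ := by
    have hc1 : ContinuousOn (fun z => ⟪q, φ z⟫) (closedBall 0 1) :=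
      (innerSL ℝ q).continuous.comp_continuousOn hcont
    obtain ⟨z₁, -, hz₁⟩ := (isCompact_closedBall (0 : ℂ) 1).exists_isMinOn
      ⟨0, by simp⟩ hc1
    refine ⟨1 - ⟪q, φ z₁⟫, fun z hz => ?_⟩
    have := hz₁ hz
    simp only [mem_ofPred_eq] at this
    linarith
  -- the height `t₀`
  obtain ⟨t₀, ht₀, ht₁⟩ : ∃ t₀ : ℝ, 0 < t₀ ∧ ∀ z : ℂ, ‖z‖ ≤ 1 - δ → t₀ ≤ φ z 3 := by
    have hc1 : ContinuousOn (fun z => φ z 3) (closedBall 0 (1 - δ)) :=
      (EuclideanSpace.proj (3 : Fin 4) : E4 →L[ℝ] ℝ).continuous.comp_continuousOn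
        (hcont.mono (closedBall_subset_closedBall (by linarith)))
    obtain ⟨z₁, hz₁, hz₁'⟩ := (isCompact_closedBall (0 : ℂ) (1 - δ)).exists_isMinOn
      ⟨0, by simp; linarith⟩ hc1
    refine ⟨φ z₁ 3, h.inside z₁ ?_, fun z hz => hz₁' (mem_closedBall_zero_iff.2 hz)⟩
    have := mem_closedBall_zero_iff.1 hz₁
    exact mem_ball_zero_iff.2 (by linarith)
  set g : ℝ → ℝ := fun t => Real.smoothTransition (4 / t₀ * t - 1) with hgd
  have hgm : Monotone g := fun a b hab => Real.smoothTransition.monotone (by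
    have := mul_le_mul_of_nonneg_left hab (by positivity : 0 ≤ 4 / t₀)
    linarith)
  have hgs : ContDiff ℝ ∞ g := Real.smoothTransition.contDiff.comp (by fun_prop)
  have hg0 : ∀ t, t ≤ t₀ / 4 → g t = 0 := fun t ht => Real.smoothTransition.zero_of_nonpos (by
    have : 4 / t₀ * t ≤ 1 := by
      rw [div_mul_eq_mul_div, div_le_one ht₀]; linarith
    linarith)
  have hg1 : ∀ t, t₀ / 2 ≤ t → g t = 1 := fun t ht => Real.smoothTransition.one_of_one_le (by
    have : 2 ≤ 4 / t₀ * t := by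
      rw [div_mul_eq_mul_div, le_div_iff₀ ht₀]; linarith
    linarith)
  have hgn : ∀ t, 0 ≤ g t := fun t => Real.smoothTransition.nonneg _
  set ψ : ℂ → E4 := fun w => lift g T q (φ w) with hψ
  have hψ3 : ∀ z, ψ z 3 = φ z 3 + g (φ z 3) * (T + ⟪q, φ z⟫) := fun z => lift_three _ _ _ _
  have hψeq : ∀ z, g (φ z 3) = 0 → ψ z = φ z := by
    intro z hz
    rw [hψ]
    show φ z + (g (φ z 3) * (T + ⟪q, φ z⟫)) • vert = φ z
    rw [hz, zero_mul, zero_smul, add_zero]
  have hsph : ∀ z ∈ sphere (0 : ℂ) 1, ψ z = φ z := fun z hz =>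
    hψeq z (hg0 _ (by rw [h.bdry z hz]; positivity))
  refine ⟨ψ, ⟨?_, ?_, ?_, ?_, ?_, ?_⟩, hsph, ?_⟩
  · refine ⟨W, hW, hWsub, ?_⟩
    have e1 : ContDiffOn ℝ ∞ (fun w => φ w 3) W :=
      (EuclideanSpace.proj (3 : Fin 4) : E4 →L[ℝ] ℝ).contDiff.comp_contDiffOn hWs
    have e2 : ContDiffOn ℝ ∞ (fun w => ⟪q, φ w⟫) W :=
      (innerSL ℝ q).contDiff.comp_contDiffOn hWs
    exact hWs.add (((hgs.comp_contDiffOn e1).mul (contDiffOn_const.add e2)).smul
      contDiffOn_const)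
  · intro a ha b hb hab
    exact h.inj ha hb (lift_inj hgm hq (hT0 a ha) hab)
  · intro z hz
    exact (lift_deriv hgm hgs hq (h.at hz) (hT0 z hz) (h.imm z hz)).2
  · intro z hz
    rw [hψ3]
    have := mul_nonneg (hgn (φ z 3)) (hT0 z (ball_subset_closedBall hz)).le
    linarith [h.inside z hz]
  · intro z hz
    rw [hsph z hz]
    exact h.bdry z hz
  · have hδ' : 0 < min δ (t₀ / (4 * c)) := lt_min hδ (by positivity)
    refine ⟨min δ (t₀ / (4 * c)), c, hδ', (min_le_left _ _).trans_lt hδ1, hc, ?_⟩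
    intro z h1 h2
    have hz0 : 0 < ‖z‖ := by
      have := min_le_left δ (t₀ / (4 * c))
      linarith
    have h3 := hcol z (by have := min_le_left δ (t₀ / (4 * c)); linarith) h2
    have hs1 : ‖z‖⁻¹ • z ∈ sphere (0 : ℂ) 1 := by
      rw [mem_sphere_zero_iff_norm, norm_smul, norm_inv, norm_norm, inv_mul_cancel₀ hz0.ne']
    rw [hsph _ hs1, ← h3]
    apply hψeq
    apply hg0
    have h4 : φ z 3 = c * (1 - ‖z‖) := by
      have := congrArg (fun w : E4 => w 3) h3
      have e : (φ (‖z‖⁻¹ • z) + (c * (1 - ‖z‖)) • vert) 3 =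
        φ (‖z‖⁻¹ • z) 3 + (c * (1 - ‖z‖)) * vert 3 := rfl
      simp only [e, vert_three, h.bdry _ hs1] at this
      linarith
    rw [h4]
    have h5 : 1 - ‖z‖ ≤ t₀ / (4 * c) := by
      have := min_le_right δ (t₀ / (4 * c))
      linarith
    calc c * (1 - ‖z‖) ≤ c * (t₀ / (4 * c)) := mul_le_mul_of_nonneg_left h5 hc.le
      _ = t₀ / 4 := by field_simp
  · -- critical points of the new height
    have key : ∀ z ∈ ball (0 : ℂ) 1, fderiv ℝ (fun w => ψ w 3) z = 0 →
        (∀ v, ⟪y, d1 φ v z⟫ = 0) ∧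
        ((fun w => ψ w 3) =ᶠ[𝓝 z] fun w => ⟪y, φ w⟫ + T) := by
      intro z hz hcr
      have hzc := ball_subset_closedBall hz
      have hsm := h.at hzc
      by_cases hh : t₀ / 2 < φ z 3
      · have hev : (fun w => ψ w 3) =ᶠ[𝓝 z] fun w => ⟪y, φ w⟫ + T := by
          have hc3 : ContinuousAt (fun w => φ w 3) z :=
            ((EuclideanSpace.proj (3 : Fin 4) : E4 →L[ℝ] ℝ).continuous.continuousAt).comp
              hsm.continuousAt
          filter_upwards [hc3.eventually (lt_mem_nhds hh)] with w hw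
          rw [hψ3, hg1 _ hw.le, one_mul, hyq]
          ring
        refine ⟨fun v => ?_, hev⟩
        rw [← (hess hsm y T).1 v, ← hev.fderiv_eq, hcr]
        rfl
      · exfalso
        push Not at hh
        have hcl : 1 - δ < ‖z‖ := by
          by_contra hcon
          push Not at hcon
          have := ht₁ z hcon
          linarith
        have hz1 := mem_ball_zero_iff.1 hz
        have hz0 : 0 < ‖z‖ := by linarith
        have h1 := collar_deriv h hδ1 hcol hcl hz1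
        have h2 := (lift_deriv hgm hgs hq hsm (hT0 z hzc) (h.imm z hzc)).1 z
        have hdψ : DifferentiableAt ℝ ψ z := by
          have hd : DifferentiableAt ℝ φ z := hsm.differentiableAt (by simp)
          have e1 : DifferentiableAt ℝ (fun w => φ w 3) z :=
            (EuclideanSpace.proj (3 : Fin 4) : E4 →L[ℝ] ℝ).differentiableAt.comp z hd
          have e2 : DifferentiableAt ℝ (fun w => ⟪q, φ w⟫) z :=
            (innerSL ℝ q).differentiableAt.comp z hd
          have e3 : DifferentiableAt ℝ (fun w => g (φ w 3)) z :=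
            ((hgs.differentiable (by simp)) _).comp z e1
          exact hd.add ((e3.mul (e2.const_add T)).smul_const vert)
        have h3 : fderiv ℝ (fun w => ψ w 3) z z = (fderiv ℝ ψ z z) 3 := by
          have e1 : HasFDerivAt (fun w => ψ w 3)
              ((EuclideanSpace.proj (3 : Fin 4) : E4 →L[ℝ] ℝ).comp (fderiv ℝ ψ z)) z :=
            (EuclideanSpace.proj (3 : Fin 4) : E4 →L[ℝ] ℝ).hasFDerivAt.comp z hdψ.hasFDerivAt
          rw [e1.fderiv]
          rfl
        rw [hcr] at h3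
        have hqv : ⟪q, vert⟫ = 0 := by rw [real_inner_comm, inner_vert]; exact hq
        have h4 : (fderiv ℝ ψ z z) 3 =
            -(c * ‖z‖) * (1 + deriv g (φ z 3) * (T + ⟪q, φ z⟫)) := by
          have e0 : fderiv ℝ ψ z z = _ := h2
          rw [e0, h1, real_inner_smul_right, hqv, mul_zero, mul_zero, add_zero]
          have e1 : ((-(c * ‖z‖)) • vert + (deriv g (φ z 3) * ((-(c * ‖z‖)) • vert : E4) 3 *
            (T + ⟪q, φ z⟫)) • vert : E4) 3 = -(c * ‖z‖) * vert 3 +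
              (deriv g (φ z 3) * (-(c * ‖z‖) * vert 3) * (T + ⟪q, φ z⟫)) * vert 3 := rfl
          rw [e1, vert_three]
          ring
        have h5 : 0 < 1 + deriv g (φ z 3) * (T + ⟪q, φ z⟫) := by
          have := mul_nonneg (hgm.deriv_nonneg (x := φ z 3)) (hT0 z hzc).le
          linarith
        have h6 : 0 < c * ‖z‖ * (1 + deriv g (φ z 3) * (T + ⟪q, φ z⟫)) := by positivity
        rw [h4] at h3
        have h7 : (0 : ℂ →L[ℝ] ℝ) z = 0 := rfl
        rw [h7] at h3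
        linarith
    have hy0 : 0 < y 3 := by rw [hy3]; exact one_pos
    refine ⟨?_, ?_, ?_⟩
    · intro z hz hcr u hu
      obtain ⟨h1, h2⟩ := key z hz hcr
      have hsm := h.at (ball_subset_closedBall hz)
      refine nondegE hsm (hyn z hz h1) (fun v => ?_) (u := u)
      rw [← (hess hsm y T).2 u v, ← h2.fderiv.fderiv_eq]
      exact hu v
    · intro z hz1 hz2
      obtain ⟨h1, h2⟩ := key z hz1 hz2.fderiv_eq_zero
      refine crit_of_max (h.at (ball_subset_closedBall hz1)) hy0 (T := T) ?_ (hyn z hz1 h1)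
      have e1 : ∀ᶠ w in 𝓝 z, ψ w 3 ≤ ψ z 3 := hz2
      have e2 : ψ z 3 = ⟪y, φ z⟫ + T := h2.self_of_nhds
      filter_upwards [e1, h2] with w g1 g2
      rw [← g2, ← e2]
      exact g1
    · intro z hz1 hz2
      obtain ⟨h1, h2⟩ := key z hz1 hz2.fderiv_eq_zero
      refine crit_of_max (h.at (ball_subset_closedBall hz1)).neg hy0 (T := -T) ?_ ?_
      · have e1 : ∀ᶠ w in 𝓝 z, ψ z 3 ≤ ψ w 3 := hz2
        have e2 : ψ z 3 = ⟪y, φ z⟫ + T := h2.self_of_nhds
        filter_upwards [e1, h2] with w g1 g2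
        rw [g2, e2] at g1
        have a1 : ⟪y, opp φ w⟫ = -⟪y, φ w⟫ := inner_neg_right _ _
        have a2 : ⟪y, opp φ z⟫ = -⟪y, φ z⟫ := inner_neg_right _ _
        show ⟪y, opp φ w⟫ + -T ≤ ⟪y, opp φ z⟫ + -T
        rw [a1, a2]
        linarith
      · exact (kdet_opp φ y z).symm ▸ hyn z hz1 h1

end Pool.Agent.N15.RC
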