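import Mathlib
import Pool.Agent.N15.RC.Cnt
import Pool.Agent.N15.RC.Lift

/-!
The curvature of the slice discs bounded by a knot, and the numbers of local minima and maxima.
-/

set_option autoImplicit false

namespace Pool.Agent.N15.RC

open scoped ContDiff RealInnerProductSpace ENNReal NNReal Topology
open MeasureTheory Set Metric Filter
open Pool.Agent.Y503.RB Pool.Agent.N503.ML

theorem encard_le_ennreal {α : Type*} {S : Set α} {x : ℝ≥0∞}
    (h : ∀ s : Finset α, (∀ z ∈ s, z ∈ S) → (s.card : ℝ≥0∞) ≤ x) :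
    ((S.encard : ℕ∞) : ℝ≥0∞) ≤ x := by
  by_cases hS : S.Finite
  · have h1 := h hS.toFinset (fun z hz => hS.mem_toFinset.1 hz)
    rw [hS.encard_eq_coe_toFinset_card]
    simpa using h1
  · have h2 : ∀ n : ℕ, (n : ℝ≥0∞) ≤ x := by
      intro n
      obtain ⟨t, ht, hcard⟩ := (Set.not_finite.1 hS |> fun h : S.Infinite => h).exists_subset_card_eq n
      rw [← hcard]
      exact h t fun z hz => ht hz
    have : x = ⊤ := by
      by_contra hx
      obtain ⟨n, hn⟩ := ENNReal.exists_nat_gt hx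
      exact absurd (h2 n) (not_le.2 hn)
    rw [this]
    exact le_top

/-- A direction in which the weighted number of the extrema is at most its mean. -/
theorem mean_direction {φ : ℂ → E4} (hP : IPatch φ (ball 0 1)) (a b : ℝ≥0) :
    ∃ y : E4, y 3 = 1 ∧
      (∀ z ∈ ball (0 : ℂ) 1, (∀ v : ℂ, ⟪y, d1 φ v z⟫ = 0) → kdet φ y z ≠ 0) ∧
      ENNReal.ofReal (Real.pi ^ 2) *
        (a * (({z : ℂ | z ∈ ball (0 : ℂ) 1 ∧ CritCap (opp φ) y z}.encard : ℕ∞) : ℝ≥0∞) +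
        b * (({z : ℂ | z ∈ ball (0 : ℂ) 1 ∧ CritCap φ y z}.encard : ℕ∞) : ℝ≥0∞)) ≤
      a * lowE φ + b * uppE φ := by
  obtain ⟨c, hc1, hc2, hc3, -, -⟩ := counting hP isOpen_ball.measurableSet subset_rfl
  obtain ⟨d, hd1, hd2, hd3, -, -⟩ := counting (ipatch_opp hP) isOpen_ball.measurableSet subset_rfl
  obtain ⟨Z, hZ, hZ2⟩ := sard hP
  set μ : Measure E4 := volume.restrict HB with hμ
  have hvol : volume HB = ENNReal.ofReal (Real.pi ^ 2 / 4) := vol_HB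
  have hμu : μ univ = ENNReal.ofReal (Real.pi ^ 2 / 4) := by
    rw [hμ, Measure.restrict_apply_univ, hvol]
  have hμ0 : μ ≠ 0 := by
    intro h
    have : μ univ = 0 := by rw [h]; rfl
    rw [hμu, ENNReal.ofReal_eq_zero] at this
    have := Real.pi_pos
    nlinarith [sq_nonneg Real.pi, mul_pos this this]
  have : IsFiniteMeasure μ := ⟨by rw [hμu]; exact ENNReal.ofReal_lt_top⟩
  have hN : μ (Z ∪ HBᶜ) = 0 := by
    refine measure_union_null ?_ ?_
    · exact nonpos_iff_eq_zero.1 ((Measure.restrict_apply_le _ _).trans hZ.le)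
    · rw [hμ, Measure.restrict_apply measurable_HB.compl, compl_inter_self, measure_empty]
  have hfm : Measurable fun y => (a : ℝ≥0∞) * d y + b * c y :=
    (hd1.const_mul _).add (hc1.const_mul _)
  obtain ⟨y, hyN, hy⟩ := exists_notMem_null_le_laverage hμ0 hfm.aemeasurable hN
  rw [mem_union, not_or, notMem_compl_iff] at hyN
  obtain ⟨hyZ, hyH⟩ := hyN
  have hy3 : 0 < (y 3)⁻¹ := inv_pos.2 hyH.2
  have hpi : 0 < Real.pi ^ 2 := by positivity
  have hbound : ENNReal.ofReal (Real.pi ^ 2) * ((a : ℝ≥0∞) * d y + b * c y) ≤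
      a * lowE φ + b * uppE φ := by
    have h1 : ∫⁻ y, ((a : ℝ≥0∞) * d y + b * c y) ∂μ ≤
        ENNReal.ofReal (1 / 4) * (a * lowE φ + b * uppE φ) := by
      calc ∫⁻ y, ((a : ℝ≥0∞) * d y + b * c y) ∂μ
          ≤ ∫⁻ y, ((a : ℝ≥0∞) * d y + b * c y) := setLIntegral_le_lintegral _ _
        _ = (a : ℝ≥0∞) * (∫⁻ y, d y) + b * (∫⁻ y, c y) := by
            rw [lintegral_add_left (hd1.const_mul _), lintegral_const_mul _ hd1,
              lintegral_const_mul _ hc1]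
        _ = _ := by
            rw [hd2, hc2]
            have e1 : ∫⁻ z in ball (0 : ℂ) 1, curvE (opp φ) z = lowE φ := uppE_opp φ
            have e2 : ∫⁻ z in ball (0 : ℂ) 1, curvE φ z = uppE φ := rfl
            rw [e1, e2]
            ring
    have h2 : ⨍⁻ y, ((a : ℝ≥0∞) * d y + b * c y) ∂μ =
        (ENNReal.ofReal (Real.pi ^ 2 / 4))⁻¹ * ∫⁻ y, ((a : ℝ≥0∞) * d y + b * c y) ∂μ := by
      rw [laverage_eq, hμu, ENNReal.div_eq_inv_mul]
    rw [h2] at hy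
    have h3 : ENNReal.ofReal (Real.pi ^ 2 / 4) ≠ 0 := by
      rw [Ne, ENNReal.ofReal_eq_zero, not_le]; positivity
    calc ENNReal.ofReal (Real.pi ^ 2) * ((a : ℝ≥0∞) * d y + b * c y)
        ≤ ENNReal.ofReal (Real.pi ^ 2) * ((ENNReal.ofReal (Real.pi ^ 2 / 4))⁻¹ *
          (ENNReal.ofReal (1 / 4) * (a * lowE φ + b * uppE φ))) :=
          mul_le_mul_right (hy.trans (mul_le_mul_right h1 _)) _
      _ = (ENNReal.ofReal (Real.pi ^ 2) * ((ENNReal.ofReal (Real.pi ^ 2 / 4))⁻¹ *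
          ENNReal.ofReal (1 / 4))) * (a * lowE φ + b * uppE φ) := by ring
      _ = a * lowE φ + b * uppE φ := by
          rw [← ENNReal.ofReal_inv_of_pos (by positivity), ← ENNReal.ofReal_mul (by positivity),
            ← ENNReal.ofReal_mul (by positivity)]
          have : Real.pi ^ 2 * ((Real.pi ^ 2 / 4)⁻¹ * (1 / 4)) = 1 := by field_simp
          rw [this, ENNReal.ofReal_one, one_mul]
  have hcnt : ∀ (χ : ℂ → E4) (e : E4 → ℝ≥0∞), (∀ y ∈ ball (0 : E4) 1, ∀ s : Finset ℂ,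
      (∀ z ∈ s, z ∈ ball (0 : ℂ) 1 ∧ CritCap χ y z) → (s.card : ℝ≥0∞) ≤ e y) →
      (({z : ℂ | z ∈ ball (0 : ℂ) 1 ∧ CritCap χ ((y 3)⁻¹ • y) z}.encard : ℕ∞) : ℝ≥0∞) ≤ e y := by
    intro χ e he
    refine encard_le_ennreal fun s hs => he y hyH.1 s fun z hz => ?_
    exact ⟨(hs z hz).1, (critCap_smul hy3).1 (hs z hz).2⟩
  refine ⟨(y 3)⁻¹ • y, ?_, ?_, ?_⟩
  · show (y 3)⁻¹ * y 3 = 1
    exact inv_mul_cancel₀ hyH.2.ne'
  · intro z hz hv
    rw [kdet_smul]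
    refine mul_ne_zero (by positivity) (hZ2 y hyZ ?_ z hz fun v => ?_)
    · rintro rfl
      exact lt_irrefl _ hyH.2
    · have := hv v
      rw [real_inner_smul_left] at this
      exact (mul_eq_zero.1 this).resolve_left hy3.ne'
  · refine le_trans (mul_le_mul_right (add_le_add (mul_le_mul_right (hcnt _ d hd3) _)
      (mul_le_mul_right (hcnt _ c hc3) _)) _) hbound

/-- **(A)** From curvature to extrema. -/
theorem extrema_of_curv {φ : ℂ → E4} (h : HalfDisc φ) (a b : ℝ≥0) :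
    ∃ ψ : ℂ → E4, HalfDisc ψ ∧ (∀ z ∈ sphere (0 : ℂ) 1, ψ z = φ z) ∧ MorseHt ψ ∧
      ENNReal.ofReal (Real.pi ^ 2) * (a * (nmin ψ : ℝ≥0∞) + b * (nmax ψ : ℝ≥0∞)) ≤
        a * lowE φ + b * uppE φ := by
  obtain ⟨y, hy3, hyn, hyc⟩ := mean_direction h.patch a b
  obtain ⟨ψ, h1, h2, h3, h4, h5⟩ := lift_disc h hy3 hyn
  refine ⟨ψ, h1, h2, h3, le_trans (mul_le_mul_right (add_le_add (mul_le_mul_right ?_ _)
    (mul_le_mul_right ?_ _)) _) hyc⟩
  · have h6 : nmin ψ ≤ {z : ℂ | z ∈ ball (0 : ℂ) 1 ∧ CritCap (opp φ) y z}.encard :=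
      Set.encard_le_encard fun z hz => ⟨hz.1, h5 z hz.1 hz.2⟩
    exact_mod_cast h6
  · have h6 : nmax ψ ≤ {z : ℂ | z ∈ ball (0 : ℂ) 1 ∧ CritCap φ y z}.encard :=
      Set.encard_le_encard fun z hz => ⟨hz.1, h4 z hz.1 hz.2⟩
    exact_mod_cast h6

theorem lam_opp (l : ℝ) (φ : ℂ → E4) : (fun w => lam l (opp φ w)) = opp (fun w => lam l (φ w)) := by
  funext w
  exact map_neg (lam l) (φ w)

/-- The number of the extrema is finite. -/
theorem nmax_finite {φ : ℂ → E4} (h : Srf φ) (hM : MorseHt φ) : nmax φ ≠ ⊤ := by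
  classical
  obtain ⟨δ, c, hδ, hδ1, hc, hcol⟩ := h.collar
  have hloc : ∀ z₀ : ℂ, ∃ ε > 0, z₀ ∈ ball (0 : ℂ) 1 →
      (∀ z ∈ ball z₀ ε, ∀ z' ∈ ball z₀ ε, CritCap φ vert z → CritCap φ vert z' → z = z') := by
    intro z₀
    by_cases hz₀ : z₀ ∈ ball (0 : ℂ) 1
    · obtain ⟨ε, hε, hb⟩ := local_count h hM hz₀
      exact ⟨ε, hε, fun _ => (hb vert (by simpa using hε)).1⟩
    · exact ⟨1, one_pos, fun h => absurd h hz₀⟩
  choose r hr hrb using hloc
  obtain ⟨t, ht1, ht2⟩ := (isCompact_closedBall (0 : ℂ) (1 - δ)).elim_nhds_subcover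
    (fun z => ball z (r z)) (fun z _ => ball_mem_nhds z (hr z))
  have hcc : ∀ z ∈ ball (0 : ℂ) 1, IsLocalMax (fun w => φ w 3) z → CritCap φ vert z := by
    intro z hz hm
    have hsm := h.at (ball_subset_closedBall hz)
    have hcr : fderiv ℝ (fun w => φ w 3) z = 0 := hm.fderiv_eq_zero
    have hcr2 : ∀ v : ℂ, ⟪vert, d1 φ v z⟫ = 0 := by
      intro v
      rw [← (hess hsm vert 0).1 v, ← height_eq, hcr]
      rfl
    refine crit_of_max hsm (T := 0) (by rw [vert_three]; exact one_pos) (by rwa [← height_eq]) ?_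
    exact kdet_ne h hM hz hcr
  have hin : ∀ z ∈ {z : ℂ | z ∈ ball (0 : ℂ) 1 ∧ IsLocalMax (fun w => φ w 3) z},
      ∃ z₀ ∈ t, z ∈ ball z₀ (r z₀) := by
    intro z hz
    obtain ⟨hz1, hz2⟩ := hz
    have hzn : ‖z‖ ≤ 1 - δ := by
      by_contra hcon
      push Not at hcon
      have h1 := hcol z hcon (mem_ball_zero_iff.1 hz1)
      have h2 := (hcc z hz1 hz2).1 z
      rw [h1, real_inner_smul_right, real_inner_self_eq_norm_sq, norm_vert] at h2
      have hz0 : 0 < ‖z‖ := by linarith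
      have h3 : c * ‖z‖ * 1 ^ 2 ≠ 0 := by
        rw [one_pow, mul_one]; exact mul_ne_zero hc hz0.ne'
      exact h3 h2
    have := ht2 (mem_closedBall_zero_iff.2 hzn)
    simpa using this
  choose! f hf1 hf2 using hin
  have hinj : InjOn f {z : ℂ | z ∈ ball (0 : ℂ) 1 ∧ IsLocalMax (fun w => φ w 3) z} := by
    intro x hx w hw hxw
    have hfb : f x ∈ ball (0 : ℂ) 1 := by
      have := mem_closedBall_zero_iff.1 (ht1 _ (hf1 x hx))
      exact mem_ball_zero_iff.2 (by linarith)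
    exact hrb (f x) hfb x (hf2 x hx) w (by rw [hxw]; exact hf2 w hw) (hcc x hx.1 hx.2)
      (hcc w hw.1 hw.2)
  have hfin : {z : ℂ | z ∈ ball (0 : ℂ) 1 ∧ IsLocalMax (fun w => φ w 3) z}.Finite :=
    Set.Finite.of_finite_image (t.finite_toSet.subset (by
      rintro _ ⟨x, hx, rfl⟩
      exact hf1 x hx)) hinj
  exact Set.encard_ne_top_iff.2 hfin

/-- **(B)** From extrema to curvature: vertical stretching. -/
theorem curv_of_extrema {ψ : ℂ → E4} (h : HalfDisc ψ) (hM : MorseHt ψ) {η : ℝ} (hη : 0 < η) :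
    ∃ φ : ℂ → E4, HalfDisc φ ∧ (∀ z ∈ sphere (0 : ℂ) 1, φ z = ψ z) ∧
      lowE φ ≤ ENNReal.ofReal (Real.pi ^ 2) * (nmin ψ : ℝ≥0∞) + ENNReal.ofReal η ∧
      uppE φ ≤ ENNReal.ofReal (Real.pi ^ 2) * (nmax ψ : ℝ≥0∞) + ENNReal.ofReal η := by
  have hs := srf_of h
  have hf1 := nmax_finite hs hM
  have hf2 := nmax_finite hs.opp (morse_opp hM)
  obtain ⟨M, hMe⟩ := ENat.ne_top_iff_exists.1 hf1
  obtain ⟨m, hme⟩ := ENat.ne_top_iff_exists.1 hf2
  obtain ⟨C, hC, hCb⟩ := curv_lam hs hM (m := M) hMe.ge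
  obtain ⟨D, hD, hDb⟩ := curv_lam hs.opp (morse_opp hM) (m := m) hme.ge
  have hl : 0 < (C + D) / η + 1 := by positivity
  obtain ⟨x1, x2⟩ := halfDisc_lam h hl
  have hgen : ∀ (E : ℝ) (n : ℕ), 0 ≤ E → E ≤ C + D →
      ENNReal.ofReal (Real.pi ^ 2 * n + E / ((C + D) / η + 1)) ≤
        ENNReal.ofReal (Real.pi ^ 2) * (n : ℝ≥0∞) + ENNReal.ofReal η := by
    intro E n hE hE2
    have h1 : E / ((C + D) / η + 1) ≤ η := by
      rw [div_le_iff₀ hl]
      have : η * ((C + D) / η + 1) = C + D + η := by field_simp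
      rw [this]
      linarith
    have h2 : ENNReal.ofReal (Real.pi ^ 2) * (n : ℝ≥0∞) + ENNReal.ofReal η =
        ENNReal.ofReal (Real.pi ^ 2 * n + η) := by
      rw [ENNReal.ofReal_add (by positivity) hη.le, ENNReal.ofReal_mul (by positivity),
        ENNReal.ofReal_natCast]
    rw [h2]
    exact ENNReal.ofReal_le_ofReal (by linarith)
  refine ⟨_, x1, x2, ?_, ?_⟩
  · rw [← uppE_opp, ← lam_opp, ← nmax_opp, ← hme]
    exact (hDb _ hl).trans (by simpa using hgen D m hD (by linarith))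
  · rw [← hMe]
    exact (hCb _ hl).trans (by simpa using hgen C M hC (by linarith))

/-- **The set of curvatures and the set of numbers of extrema.** For all weights, the infimum of
the weighted curvature over the discs with boundary `γ` is `π²` times the least weighted number of
extrema. -/
theorem inf_eq (γ : ℂ → E4) (a b : ℝ≥0) :
    ⨅ (φ : ℂ → E4) (_ : HalfDisc φ ∧ ∀ z ∈ sphere (0 : ℂ) 1, φ z = γ z),
        ((a : ℝ≥0∞) * lowE φ + b * uppE φ) =
      ⨅ (ψ : ℂ → E4) (_ : (HalfDisc ψ ∧ ∀ z ∈ sphere (0 : ℂ) 1, ψ z = γ z) ∧ MorseHt ψ),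
        ENNReal.ofReal (Real.pi ^ 2) * ((a : ℝ≥0∞) * (nmin ψ : ℝ≥0∞) + b * (nmax ψ : ℝ≥0∞)) := by
  apply le_antisymm
  · refine le_iInf₂ fun ψ hψ => ?_
    refine ENNReal.le_of_forall_pos_le_add fun ε hε _ => ?_
    have hab : (0 : ℝ) < a + b + 1 := by positivity
    obtain ⟨φ, h1, h2, h3, h4⟩ := curv_of_extrema hψ.1.1 hψ.2 (η := ε / (a + b + 1)) (by positivity)
    refine (iInf₂_le φ ⟨h1, fun z hz => (h2 z hz).trans (hψ.1.2 z hz)⟩).trans ?_
    refine (add_le_add (mul_le_mul_right h3 _) (mul_le_mul_right h4 _)).trans ?_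
    have h5 : (a : ℝ≥0∞) * ENNReal.ofReal (ε / (a + b + 1)) + b * ENNReal.ofReal (ε / (a + b + 1)) ≤
        (ε : ℝ≥0∞) := by
      rw [← add_mul, ← ENNReal.coe_add, ← ENNReal.ofReal_coe_nnreal,
        ← ENNReal.ofReal_mul (by positivity), ← ENNReal.ofReal_coe_nnreal (p := ε)]
      apply ENNReal.ofReal_le_ofReal
      push_cast
      rw [← mul_div_assoc, div_le_iff₀ hab]
      have : (0 : ℝ) < ε := by exact_mod_cast hε
      nlinarith
    calc _ = ENNReal.ofReal (Real.pi ^ 2) * ((a : ℝ≥0∞) * (nmin ψ : ℝ≥0∞) +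
          b * (nmax ψ : ℝ≥0∞)) + ((a : ℝ≥0∞) * ENNReal.ofReal (ε / (a + b + 1)) +
          b * ENNReal.ofReal (ε / (a + b + 1))) := by ring
      _ ≤ _ := by gcongr
  · refine le_iInf₂ fun φ hφ => ?_
    obtain ⟨ψ, h1, h2, h3, h4⟩ := extrema_of_curv hφ.1 a b
    exact (iInf₂_le ψ ⟨⟨h1, fun z hz => (h2 z hz).trans (hφ.2 z hz)⟩, h3⟩).trans h4

/-- Local minima: the least number, and ribbon discs for `m = 0`. -/
theorem tfae_min (γ : ℂ → E4) (m : ℕ) :
    List.TFAE [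
      ∃ ψ : ℂ → E4, HalfDisc ψ ∧ (∀ z ∈ sphere (0 : ℂ) 1, ψ z = γ z) ∧ MorseHt ψ ∧ nmin ψ ≤ m,
      ∃ φ : ℂ → E4, HalfDisc φ ∧ (∀ z ∈ sphere (0 : ℂ) 1, φ z = γ z) ∧
        lowE φ < ENNReal.ofReal (Real.pi ^ 2 * (m + 1)),
      ∀ η : ℝ, 0 < η → ∃ φ : ℂ → E4, HalfDisc φ ∧ (∀ z ∈ sphere (0 : ℂ) 1, φ z = γ z) ∧
        lowE φ ≤ ENNReal.ofReal (Real.pi ^ 2 * m + η)] := by
  have hpi : 0 < Real.pi ^ 2 := by positivity
  tfae_have 1 → 3 := by
    rintro ⟨ψ, h1, h2, h3, h4⟩ η hη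
    obtain ⟨φ, a1, a2, a3, -⟩ := curv_of_extrema h1 h3 hη
    refine ⟨φ, a1, fun z hz => (a2 z hz).trans (h2 z hz), a3.trans ?_⟩
    have h5 : (nmin ψ : ℝ≥0∞) ≤ (m : ℝ≥0∞) := by exact_mod_cast h4
    rw [ENNReal.ofReal_add (by positivity) hη.le, ENNReal.ofReal_mul (by positivity),
      ENNReal.ofReal_natCast]
    gcongr
  tfae_have 3 → 2 := by
    intro h
    obtain ⟨φ, h1, h2, h3⟩ := h 1 one_pos
    refine ⟨φ, h1, h2, h3.trans_lt ?_⟩
    rw [ENNReal.ofReal_lt_ofReal_iff (by positivity)]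
    have := Real.pi_gt_three
    nlinarith
  tfae_have 2 → 1 := by
    rintro ⟨φ, h1, h2, h3⟩
    obtain ⟨ψ, a1, a2, a3, a4⟩ := extrema_of_curv h1 1 0
    refine ⟨ψ, a1, fun z hz => (a2 z hz).trans (h2 z hz), a3, ?_⟩
    simp only [ENNReal.coe_one, ENNReal.coe_zero, one_mul, zero_mul, add_zero] at a4
    have h4 : ENNReal.ofReal (Real.pi ^ 2) * (nmin ψ : ℝ≥0∞) <
        ENNReal.ofReal (Real.pi ^ 2) * ((m + 1 : ℕ) : ℝ≥0∞) := by
      refine (a4.trans_lt h3).trans_eq ?_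
      rw [← ENNReal.ofReal_natCast, ← ENNReal.ofReal_mul (by positivity)]
      push_cast
      rfl
    have h5 : (nmin ψ : ℝ≥0∞) < ((m + 1 : ℕ) : ℝ≥0∞) := by
      by_contra hc
      push Not at hc
      exact absurd (mul_le_mul_right hc (ENNReal.ofReal (Real.pi ^ 2))) (not_le.2 h4)
    have h6 : nmin ψ < ((m + 1 : ℕ) : ℕ∞) := by exact_mod_cast h5
    have h7 : nmin ψ < (m : ℕ∞) + 1 := by simpa using h6
    exact Order.lt_add_one_iff_of_not_isMax (by simp) |>.1 h7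
  tfae_finish

end Pool.Agent.N15.RC
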